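import Pool.Agent.Helper86.EN.Goals2

/-!
# Packet EN2-DE
-/

set_option autoImplicit false

open Complex MeasureTheory Set Filter Topology ContDiff

namespace Pool.Agent.Helper59.EN2.DE

open Pool.Agent.Helper86.EN

lemma le_vol (m : Measure ℝ) (C : ℝ) (hC : 0 ≤ C)
    (h : ∀ a b : ℝ, a ≤ b → m (Icc a b) ≤ ENNReal.ofReal (C * (b - a))) :
    m ≤ C.toNNReal • (volume : Measure ℝ) := by
  rw [Real.volume_eq_stieltjes_id, ← StieltjesFunction.measure_smul]
  set f : StieltjesFunction ℝ := C.toNNReal • StieltjesFunction.id with hf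
  have hfx : ∀ x, f x = C * x := by
    intro x
    show (C.toNNReal : ℝ) * x = C * x
    rw [Real.coe_toNNReal C hC]
  have hle : m.toOuterMeasure ≤ f.outer := by
    show m.toOuterMeasure ≤ OuterMeasure.ofFunction f.length f.length_empty
    rw [OuterMeasure.le_ofFunction]
    intro s
    rw [StieltjesFunction.length_eq]
    refine le_iInf fun a => le_iInf fun b => le_iInf fun hs => ?_
    have hs' : s ⊆ Ioc a b := by
      intro x hx
      apply hs
      refine ⟨hx, ?_⟩
      intro hb
      have := hb (x - 1)
      linarith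
    rw [hfx, hfx]
    by_cases hab : a ≤ b
    · calc m s ≤ m (Icc a b) := measure_mono (hs'.trans Ioc_subset_Icc_self)
        _ ≤ ENNReal.ofReal (C * (b - a)) := h a b hab
        _ = ENNReal.ofReal (C * b - C * a) := by rw [mul_sub]
    · have he : Ioc a b = ∅ := Ioc_eq_empty (fun h => hab h.le)
      rw [he] at hs'
      have : m s = 0 := by
        rw [subset_empty_iff.1 hs', measure_empty]
      show m s ≤ _
      rw [this]
      exact zero_le
  rw [Measure.le_iff']
  intro s
  have h1 := hle s
  rw [StieltjesFunction.measure]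
  exact h1

theorem t : S_DE := by
  classical
  intro B μ C hB hfin hμB hC h
  have him : Measurable Complex.im := Complex.measurable_im
  set m : Measure ℝ := μ.map Complex.im with hm
  have hfm : IsFiniteMeasure m := by rw [hm]; infer_instance
  have h1 : ∀ a b : ℝ, a ≤ b → m (Icc a b) ≤ ENNReal.ofReal (C * (b - a)) := by
    intro a b hab
    rw [hm, Measure.map_apply him measurableSet_Icc]
    exact h a b hab
  have hle := le_vol m C hC h1
  have hac : m ≪ volume := by
    refine (Measure.absolutelyContinuous_of_le hle).trans ?_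
    exact Measure.smul_absolutelyContinuous
  have hBm : MeasurableSet B := hB.measurableSet
  have hmB : m Bᶜ = 0 := by
    rw [hm, Measure.map_apply him hBm.compl]
    exact hμB
  set r := m.rnDeriv volume with hr
  have hrm : Measurable r := Measure.measurable_rnDeriv _ _
  have hrC : ∀ᵐ y, r y ≤ ENNReal.ofReal C := by
    have := ae_le_of_forall_setLIntegral_le_of_sigmaFinite (μ := (volume : Measure ℝ)) (f := r)
      (g := fun _ => ENNReal.ofReal C) hrm ?_
    · exact this
    · intro s hs _
      have h2 : ∫⁻ x in s, r x = m s := Measure.setLIntegral_rnDeriv hac s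
      rw [h2, setLIntegral_const]
      have h3 := Measure.le_iff'.1 hle s
      rw [Measure.smul_apply] at h3
      exact h3
  have hrB : ∀ᵐ y, y ∉ B → r y = 0 := by
    have h2 : ∫⁻ x in Bᶜ, r x = 0 := by rw [Measure.setLIntegral_rnDeriv hac, hmB]
    rw [lintegral_eq_zero_iff hrm] at h2
    have h3 := (ae_restrict_iff' hBm.compl).1 h2
    exact h3
  refine ⟨fun y => if y ∈ B then min (r y).toReal C else 0, ?_, ?_, ?_, ?_⟩
  · exact Measurable.ite hBm (hrm.ennreal_toReal.min measurable_const) measurable_const
  · intro y
    by_cases hy : y ∈ B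
    · simp only [if_pos hy]
      exact ⟨le_min ENNReal.toReal_nonneg hC, min_le_right _ _⟩
    · simp only [if_neg hy]
      exact ⟨le_refl _, hC⟩
  · intro y hy
    simp only [if_neg hy]
  · intro ψ hψ
    have h2 : ∫ z, ψ z.im ∂μ = ∫ y, ψ y ∂m :=
      (integral_map him.aemeasurable hψ.aestronglyMeasurable).symm
    rw [h2, ← integral_rnDeriv_smul hac]
    apply integral_congr_ae
    filter_upwards [hrC, hrB] with y h3 h4
    by_cases hy : y ∈ B
    · rw [if_pos hy, smul_eq_mul, mul_comm]
      congr 1
      rw [min_eq_left]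
      have := ENNReal.toReal_mono ENNReal.ofReal_ne_top h3
      rwa [ENNReal.toReal_ofReal hC] at this
    · have h5 := h4 hy
      rw [if_neg hy, ← hr, h5]
      simp

end Pool.Agent.Helper59.EN2.DE
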